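import Pool.Agent.MWGX.StmtsB

set_option autoImplicit false

namespace Pool.Agent.MWGX.H97

open Pool.Agent.Helper14_MV Pool.Agent.Helper2_MV
open Pool.Agent.MWK (pre)
open Pool.Agent.MWF (gaml)
open Pool.Agent.MWGN (nn Nm WC WT Tau Ns nl sg)
open Pool.Agent.MWGQ (pw Gn E0 A0 P0 bd kr krl Rs)
open Pool.Agent.MWGR (X It Kaba F1 Dm Ec Es Ea Al0 Rh FE)

theorem flat_rep1 (f : ℕ → List ℕ) (c d : ℕ) (h : f c = [d]) (k : ℕ) :
    (List.replicate k c).flatMap f = List.replicate k d := by
  induction k with
  | zero => rfl
  | succ k ih => rw [List.replicate_succ, List.flatMap_cons, ih, h, List.replicate_succ]; rfl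

theorem xcg (hX : XchStmt) : XcgStmt := by
  intro n β δ hG hI hD e x y a i j k i' j' k' T T' hnd hxT hyT hxT' hyT' heT haT heT' haT' h c hc
  simp only [List.nodup_cons, List.mem_cons, List.not_mem_nil, or_false, not_or,
    not_false_eq_true, List.nodup_nil, and_true] at hnd
  obtain ⟨⟨hex, hey, hea⟩, ⟨hxy, hxa⟩, hya⟩ := hnd
  let g : ℕ → ℕ := fun d => if d = e then 0 else if d = x then 1 else if d = y then 2 else
    if d = a then 3 else d + 4
  let g' : ℕ → ℕ := fun d => if d = 0 then e else if d = 1 then x else if d = 2 then y else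
    if d = 3 then a else d - 4
  let G : ℕ → List ℕ := fun d => [g d]
  let G' : ℕ → List ℕ := fun d => [g' d]
  have ge : g e = 0 := if_pos rfl
  have gx : g x = 1 := by
    change (if x = e then 0 else if x = x then 1 else _) = 1
    rw [if_neg (Ne.symm hex), if_pos rfl]
  have gy : g y = 2 := by
    change (if y = e then 0 else if y = x then 1 else if y = y then 2 else _) = 2
    rw [if_neg (Ne.symm hey), if_neg (Ne.symm hxy), if_pos rfl]
  have ga : g a = 3 := by
    change (if a = e then 0 else if a = x then 1 else if a = y then 2 else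
      if a = a then 3 else _) = 3
    rw [if_neg (Ne.symm hea), if_neg (Ne.symm hxa), if_neg (Ne.symm hya), if_pos rfl]
  have hgg : ∀ d, g' (g d) = d := by
    intro d
    by_cases h1 : d = e
    · subst h1; rw [ge]; rfl
    · by_cases h2 : d = x
      · subst h2; rw [gx]; rfl
      · by_cases h3 : d = y
        · subst h3; rw [gy]; rfl
        · by_cases h4 : d = a
          · subst h4; rw [ga]; rfl
          · have : g d = d + 4 := by
              change (if d = e then 0 else if d = x then 1 else if d = y then 2 else
                if d = a then 3 else d + 4) = d + 4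
              rw [if_neg h1, if_neg h2, if_neg h3, if_neg h4]
            rw [this]
            change (if d + 4 = 0 then e else if d + 4 = 1 then x else if d + 4 = 2 then y else
                if d + 4 = 3 then a else d + 4 - 4) = d
            rw [if_neg (by omega), if_neg (by omega), if_neg (by omega), if_neg (by omega)]
            omega
  have hinj : ∀ d d', g d = g d' → d = d' := by
    intro d d' hd
    rw [← hgg d, ← hgg d', hd]
  have hmap : ∀ L : List ℕ, L.flatMap G = L.map g := by
    intro L
    induction L with
    | nil => rfl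
    | cons z L ih => rw [List.flatMap_cons, ih]; rfl
  have hmem : ∀ (L : List ℕ) (d : ℕ), d ∈ L → g d ∈ L.flatMap G := by
    intro L d hd
    rw [hmap]
    exact List.mem_map_of_mem hd
  have hnmem : ∀ (L : List ℕ) (d : ℕ), d ∉ L → g d ∉ L.flatMap G := by
    intro L d hd hd'
    rw [hmap, List.mem_map] at hd'
    obtain ⟨z, hz, hz'⟩ := hd'
    exact hd (hinj _ _ hz' ▸ hz)
  have hback : ∀ L : List ℕ, (L.flatMap G).flatMap G' = L := by
    intro L
    induction L with
    | nil => rfl
    | cons z L ih =>
      rw [List.flatMap_cons, List.flatMap_append, ih]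
      change [g' (g z)] ++ L = z :: L
      rw [hgg]; rfl
  have Ge : ∀ k, (List.replicate k e).flatMap G = X k :=
    flat_rep1 G e 0 (by change [g e] = [0]; rw [ge])
  have Gx : G x = [1] := by change [g x] = [1]; rw [gx]
  have Gy : G y = [2] := by change [g y] = [2]; rw [gy]
  have Ga : G a = [3] := by change [g a] = [3]; rw [ga]
  have h1 := RR.sub G h
  simp only [List.flatMap_append, List.flatMap_cons, Ge, Gx, Gy, Ga, List.cons_append,
    List.nil_append] at h1
  have h2 := hX n β δ hG hI hD i j k i' j' k' (T.flatMap G) (T'.flatMap G)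
    (by rw [← gx]; exact hmem _ _ hxT) (by rw [← gy]; exact hmem _ _ hyT)
    (by rw [← gx]; exact hmem _ _ hxT') (by rw [← gy]; exact hmem _ _ hyT')
    (by rw [← ge]; exact hnmem _ _ heT) (by rw [← ga]; exact hnmem _ _ haT)
    (by rw [← ge]; exact hnmem _ _ heT') (by rw [← ga]; exact hnmem _ _ haT') h1 c hc
  have h3 := RR.sub G' h2
  have Ge' : ∀ k, (X k).flatMap G' = List.replicate k e :=
    flat_rep1 G' 0 e rfl
  have Gx' : G' 1 = [x] := rfl
  have Gy' : G' 2 = [y] := rfl
  have Ga' : G' 3 = [a] := rfl
  simp only [List.flatMap_append, List.flatMap_cons, Ge', Gx', Gy', Ga', List.cons_append,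
    List.nil_append, hback] at h3
  exact h3

end Pool.Agent.MWGX.H97
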